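import Pool.Agent.Lib.MP_95bae3_an.FC.Lett
import Pool.Agent.Lib.MP_95bae3_an.FC.Fun
import Pool.Agent.Lib.MP_95bae3_an.FC.Neg
import Pool.Agent.Lib.MP_95bae3_an.FC.Pos

set_option autoImplicit false

namespace Pool.Agent.Results.MP_95bae3_an.Classification

open Pool.Agent.Lib.MP_95bae3_an.FC

/-- For a countable group `G`, every separable Banach space with an isometric action of `G` has an
invariant strictly convex equivalent norm exactly when some subgroup of finite index consists of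
elements with finite conjugacy class. -/
theorem result (𝕜 : Type) [RCLike 𝕜] (G : Type) [Group G] [Countable G] :
    (∀ (X : Type) [NormedAddCommGroup X] [NormedSpace 𝕜 X] [CompleteSpace X]
        [TopologicalSpace.SeparableSpace X] (ρ : G →* (X ≃ₗᵢ[𝕜] X)),
      ∃ N : Seminorm 𝕜 X,
        (∃ a b : ℝ, 0 < a ∧ 0 < b ∧ ∀ x, a * ‖x‖ ≤ N x ∧ N x ≤ b * ‖x‖) ∧
        (∀ g x, N (ρ g x) = N x) ∧
        ∀ x y, N x = 1 → N y = 1 → x ≠ y → N ((1 / 2 : 𝕜) • (x + y)) < 1) ↔
    ∃ H : Subgroup G, H.FiniteIndex ∧ ∀ h ∈ H, {x | IsConj h x}.Finite := by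
  constructor
  · intro hA
    refine ⟨fc G, ?_, fun h hh => mem_fc_iff.1 hh⟩
    by_contra hD
    obtain ⟨a, L⟩ := exists_letters hD
    obtain ⟨f, hf, hav⟩ := exists_fun L
    obtain ⟨X, _, _, _, _, ρ, hX⟩ := neg 𝕜 a f hf hav
    obtain ⟨N, h1, h2, h3⟩ := hA X ρ
    obtain ⟨x, y, hx, hy, hne, he⟩ := hX N h1 h2
    exact (h3 x y hx hy hne).ne he
  · rintro ⟨H, hH, hc⟩ X _ _ _ _ ρ
    have hD : (fc G).FiniteIndex :=
      Subgroup.finiteIndex_of_le (H := H) fun h hh => mem_fc_iff.2 (hc h hh)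
    obtain ⟨N, h1, h2, h3⟩ := pos 𝕜 hD X ρ
    refine ⟨N, ⟨1, 3, one_pos, by norm_num, fun x => by simpa using h1 x⟩, h2,
      fun x y hx hy hne => ?_⟩
    have := h3 x y hx hy hne
    rw [map_smul_eq_mul, norm_div, norm_one, RCLike.norm_ofNat]
    linarith

end Pool.Agent.Results.MP_95bae3_an.Classification
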