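import Pool.Agent.FS.MidRot.Core

set_option autoImplicit false

namespace Pool.Agent.Results.MP_95bae3_an.MidpointAbelian

/-- A group with an abelian subgroup of finite index that acts by isometries on a separable normed
space leaves an equivalent midpoint locally uniformly rotund norm invariant. -/
theorem result (𝕜 : Type) [RCLike 𝕜] (G : Type) [Group G] (A : Subgroup G) [A.FiniteIndex]
    (hA : ∀ a ∈ A, ∀ b ∈ A, a * b = b * a) (X : Type) [NormedAddCommGroup X] [NormedSpace 𝕜 X]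
    [TopologicalSpace.SeparableSpace X] (ρ : G →* (X ≃ₗᵢ[𝕜] X)) :
    ∃ N : Seminorm 𝕜 X,
      (∃ a b : ℝ, 0 < a ∧ 0 < b ∧ ∀ x, a * ‖x‖ ≤ N x ∧ N x ≤ b * ‖x‖) ∧
      (∀ g x, N (ρ g x) = N x) ∧
      ∀ x, N x = 1 → ∀ ε : ℝ, 0 < ε → ∃ δ : ℝ, 0 < δ ∧ ∀ h,
        N (x + h) ≤ 1 + δ → N (x - h) ≤ 1 + δ → N h < ε :=
  Pool.Agent.FS.MidRot.main A hA ρ

end Pool.Agent.Results.MP_95bae3_an.MidpointAbelian
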