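import Pool.Agent.Lib.MP_95bae3_an.Mean
import Pool.Agent.Lib.MP_95bae3_an.OrbitK

set_option autoImplicit false

namespace Pool.Agent.Results.MP_95bae3_an.NoInvariantNorm

open Pool.Agent.Lib.MP_95bae3_an

/-- Bounded real functions. -/
def Bdd {G : Type} (f : G → ℝ) : Prop := ∃ C, ∀ x, |f x| ≤ C

/-- `G` is amenable: the bounded real functions on `G` carry a left-invariant mean, that is a
positive linear functional `m` with `m 1 = 1` which is invariant under left translation. -/
def Amenable (G : Type) [Group G] : Prop :=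
  ∃ m : (G → ℝ) → ℝ,
    (∀ f f', Bdd f → Bdd f' → m (fun x => f x + f' x) = m f + m f') ∧
    (∀ (c : ℝ) f, Bdd f → m (fun x => c * f x) = c * m f) ∧
    (∀ f, Bdd f → (∀ x, 0 ≤ f x) → 0 ≤ m f) ∧ m (fun _ => 1) = 1 ∧
    ∀ (g : G) f, Bdd f → m (fun x => f (g⁻¹ * x)) = m f

/-- Over the real and over the complex numbers there are a finitely generated amenable group and
an isometric action on a separable Banach space such that no invariant norm is strictly convex. -/
theorem result (𝕜 : Type) [RCLike 𝕜] :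
    ∃ (G : Type) (_ : Group G), Countable G ∧ Group.FG G ∧ Amenable G ∧
      ∃ (X : Type) (_ : NormedAddCommGroup X) (_ : NormedSpace 𝕜 X),
        CompleteSpace X ∧ TopologicalSpace.SeparableSpace X ∧
        ∃ ρ : G →* (X ≃ₗᵢ[𝕜] X), ∀ N : Seminorm 𝕜 X, (∀ x, N x = 0 → x = 0) →
          (∀ g x, N (ρ g x) = N x) →
          ∃ x y : X, N x = 1 ∧ N y = 1 ∧ x ≠ y ∧ N ((1 / 2 : 𝕜) • (x + y)) = 1 := by
  let _ : TopologicalSpace Lamp := ⊥
  have _ : DiscreteTopology Lamp := ⟨rfl⟩
  let f : BoundedContinuousFunction Lamp 𝕜 :=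
    BoundedContinuousFunction.ofNormedAddCommGroupDiscrete (fun x => ((harm x : ℝ) : 𝕜)) 1
      (fun x => by rw [RCLike.norm_ofReal]; exact abs_harm_le x)
  have hf : ∀ x, f x = ((harm x : ℝ) : 𝕜) := fun x => rfl
  refine ⟨Lamp, inferInstance, inferInstance, lamp_fg, mean_fun (mean_of_folner folner),
    K.orb f,
    inferInstance, inferInstance, inferInstance, inferInstance, K.rho f, fun N h0 hinv => ?_⟩
  refine K.no_strict f genA genB (fun g => ?_) ⟨⟨0, -1⟩, ?_⟩ N h0 hinv
  · rw [hf, hf, hf]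
    exact_mod_cast congrArg (fun t : ℝ => (t : 𝕜)) (harm_avg g)
  · rw [hf, hf]
    exact fun h => harm_ne (RCLike.ofReal_injective h)

end Pool.Agent.Results.MP_95bae3_an.NoInvariantNorm
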