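import Pool.Agent.FS.NoLUR.Core
import Pool.Agent.FS.NoLUR.Kad

set_option autoImplicit false

namespace Pool.Agent.Results.MP_95bae3_an.RotundFinite

/-- For a countable group `G`, every separable Banach space with an isometric action of `G` has an
invariant locally uniformly rotund equivalent norm exactly when `G` is finite. -/
theorem result (𝕜 : Type) [RCLike 𝕜] (G : Type) [Group G] [Countable G] :
    (∀ (X : Type) [NormedAddCommGroup X] [NormedSpace 𝕜 X] [CompleteSpace X]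
        [TopologicalSpace.SeparableSpace X] (ρ : G →* (X ≃ₗᵢ[𝕜] X)),
      ∃ N : Seminorm 𝕜 X,
        (∃ a b : ℝ, 0 < a ∧ 0 < b ∧ ∀ x, a * ‖x‖ ≤ N x ∧ N x ≤ b * ‖x‖) ∧
        (∀ g x, N (ρ g x) = N x) ∧
        ∀ x, N x = 1 → ∀ ε : ℝ, 0 < ε → ∃ δ : ℝ, 0 < δ ∧ ∀ y, N y = 1 →
          1 - δ < N ((1 / 2 : 𝕜) • (x + y)) → N (x - y) < ε) ↔ Finite G := by
  constructor
  · intro hA
    by_contra hG
    have : Infinite G := not_finite_iff_infinite.1 hG
    obtain ⟨X, _, _, _, _, ρ, hX⟩ := Pool.Agent.FS.NoLUR.main 𝕜 G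
    obtain ⟨N, h1, h2, h3⟩ := hA X ρ
    obtain ⟨x, hx, ε, hε, h⟩ := hX N h1 h2
    obtain ⟨δ, hδ, h4⟩ := h3 x hx ε hε
    obtain ⟨y, hy, h5, h6⟩ := h δ hδ
    exact (h4 y hy h5).not_ge h6
  · intro _ X _ _ _ _ ρ
    exact Pool.Agent.FS.NoLUR.kadec ρ

end Pool.Agent.Results.MP_95bae3_an.RotundFinite
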